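import Pool.Agent.Helper26.PQ.Stub.E3

/-! # F1: unbounded names and the supply lemma -/

set_option autoImplicit false

namespace Pool.Agent.Helper26.PQ

open Set

universe u

variable {Ω : Type} {I : Type u} [LinearOrder I] [WellFoundedLT I]

/-- The partition lemma. -/
theorem Unb.partition (F : Frame Ω I) {c : Set I} {U : PC Ω I → Ω → Prop} {p : PC Ω I}
    (hp : p ∈ F.C c) (h : Unb F c U p) {ι : Type} [Countable ι] (U' : ι → PC Ω I → Ω → Prop)
    (hU : ∀ r ∈ F.C c, Le r p → ∀ x ∈ r.X, U r x → ∃ r' ∈ F.C c, Le r' r ∧ ∃ i, U' i r' x) :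
    ∃ q ∈ F.C c, Le q p ∧ ∃ i, Unb F c (U' i) q := sorry

/-- The climbing lemma. -/
theorem climb [Uncountable Ω] (F : Frame Ω I) (hα : F.α < Ordinal.omega 1)
    (hα' : Ordinal.IsPrincipal (· + ·) F.α) {c : Set I}
    (hc : IsLowerSet c) (hG : GEL F c) {D : PC Ω I → Set Ω → Prop} (hD : IsName (F.C c) D)
    (δ : Ordinal.{0}) (hδ : δ < F.α) (β : Ordinal.{0}) {W : Set (FreeGroup I)} (hW : W.Finite)
    {f : FreeGroup I → Ordinal.{0}} (hf : ∀ g ∈ W, f g < F.α) {p : PC Ω I} (hp : p ∈ F.C c)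
    (hWp : ∀ g ∈ W, Lt p.a g) (h : Unb F c (DD D β W ∅ f) p) :
    Unb F c (DD D (β + δ) W ∅ (fun g => f g + δ)) p := sorry

/-- The supply lemma. -/
theorem supply [Uncountable Ω] (F : Frame Ω I) (hα : F.α < Ordinal.omega 1)
    (hα' : Ordinal.IsPrincipal (· + ·) F.α) {c : Set I}
    (hc : IsLowerSet c) (hG : GEL F c) {D : PC Ω I → Set Ω → Prop} (hD : IsName (F.C c) D) :
    Supply F c D := sorry

end Pool.Agent.Helper26.PQ
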