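import Pool.Agent.Helper26.PQ.Defs

/-! # A1: rings of compact open sets -/

set_option autoImplicit false

namespace Pool.Agent.Helper26.PQ

open Set

universe u v w

variable {Ω : Type u} {Ω' : Type v} {Ω'' : Type w}
variable {K K' K'' : Set (Set Ω)} {L L' : Set (Set Ω')} {N : Set (Set Ω'')}
variable {A B D E E' : Set Ω} {f g : Ω → Ω'} {x : Ω}

theorem subset_car (hA : A ∈ K) : A ⊆ car K := sorry

theorem car_mono (h : K' ⊆ K) : car K' ⊆ car K := sorry

theorem IsRing.inter (h : IsRing K) (hA : A ∈ K) (hB : B ∈ K) : A ∩ B ∈ K := sorry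

theorem IsRing.sUnion (h : IsRing K) {V : Set (Set Ω)} (hV : V ⊆ K) (hf : V.Finite) : ⋃₀ V ∈ K :=
  sorry

theorem IsRing.mem_of_clopen (h : IsRing K) (hA : A ∈ K) (hD : D ⊆ A)
    (h1 : ∀ x ∈ D, ∃ B ∈ K, x ∈ B ∧ B ⊆ D)
    (h2 : ∀ x ∈ A, x ∉ D → ∃ B ∈ K, x ∈ B ∧ B ∩ D = ∅) : D ∈ K := sorry

/-- A compact set (a closed subset of a member) inside an open set lies in a member inside the open
set. -/
theorem IsRing.between (h : IsRing K) (hA : A ∈ K) (hE : Cl K E) (hD : A ∩ E ⊆ D)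
    (h1 : ∀ x ∈ D, ∃ B ∈ K, x ∈ B ∧ B ⊆ D) : ∃ B ∈ K, A ∩ E ⊆ B ∧ B ⊆ D := sorry

theorem isRing_singleton_empty : IsRing ({∅} : Set (Set Ω)) := sorry

theorem car_singleton_empty : car ({∅} : Set (Set Ω)) = ∅ := sorry

/-! closed sets -/

theorem IsRing.cl_mem (h : IsRing K) (hA : A ∈ K) : Cl K A := sorry

theorem cl_car : Cl K (car K) := sorry

theorem Cl.inter (h : IsRing K) (hE : Cl K E) (hE' : Cl K E') : Cl K (E ∩ E') := sorry

theorem Cl.union (h : IsRing K) (hE : Cl K E) (hE' : Cl K E') : Cl K (E ∪ E') := sorry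

/-! clopen sets and clopen subspaces -/

theorem Clp.part (h : Clp K D) : Part (pc K D) K := sorry

theorem Clp.car_pc (h : Clp K D) : car (pc K D) = D := sorry

theorem IsRing.clp_mem (h : IsRing K) (hA : A ∈ K) : Clp K A := sorry

theorem clp_car : Clp K (car K) := sorry

theorem Clp.diff (h : IsRing K) (hD : Clp K D) (hE : Clp K E) : Clp K (D \ E) := sorry

theorem Clp.inter (h : IsRing K) (hD : Clp K D) (hE : Clp K E) : Clp K (D ∩ E) := sorry

theorem Clp.union (h : IsRing K) (hD : Clp K D) (hE : Clp K E) : Clp K (D ∪ E) := sorry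

theorem Clp.cl (h : IsRing K) (hD : Clp K D) : Cl K D := sorry

theorem Part.clp (h : Part K' K) : Clp K (car K') := sorry

theorem Part.pc_car (h : Part K' K) : pc K (car K') = K' := sorry

theorem Part.refl : Part K K := sorry

theorem Part.trans (h : Part K'' K') (h' : Part K' K) : Part K'' K := sorry

theorem Part.isRing (h : Part K' K) (hK : IsRing K) : IsRing K' := sorry

/-- If `D` is a subset of a clopen subspace and clopen in it, it is clopen. -/
theorem Part.clp_trans (h : Part K' K) (hD : Clp K' D) : Clp K D := sorry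

theorem Part.clp_inter (h : Part K' K) (hD : Clp K D) : Clp K' (D ∩ car K') := sorry

theorem Part.cl_inter (hK : IsRing K) (h : Part K' K) (hE : Cl K E) : Cl K' (E ∩ car K') := sorry

theorem Part.cl_trans (hK : IsRing K) (h : Part K' K) (hE : Cl K' E) : Cl K E := sorry

/-! subspaces -/

theorem car_sub (hE : E ⊆ car K) : car (sub K E) = E := sorry

theorem IsRing.sub (h : IsRing K) (hE : Cl K E) : IsRing (sub K E) := sorry

theorem sub_sub (hE : E' ⊆ E) : sub (sub K E) E' = sub K E' := sorry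

/-- A closed subset of a closed subspace is closed. -/
theorem Cl.trans (h : IsRing K) (hE : Cl K E) (hE' : Cl (sub K E) E') : Cl K E' := sorry

theorem Cl.of_sub (hE : Cl K E) (hE' : Cl K E') (h : E' ⊆ E) : Cl (sub K E) E' := sorry

/-- The trace on a clopen subspace. -/
theorem sub_part (hK : IsRing K) (h : Part K' K) (hE : Cl K E) :
    Part (sub K' (E ∩ car K')) (sub K E) := sorry

/-- A closed subset which is open in the closed subspace `E` is a clopen subset of `E`. -/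
theorem clp_sub (h : IsRing K) (hE : Cl K E) (hE' : Cl K E') (hs : E' ⊆ E)
    (ho : ∀ x ∈ E', ∃ A ∈ K, x ∈ A ∧ A ∩ E ⊆ E') : Clp (sub K E) E' := sorry

theorem pc_sub (h : IsRing K) (hE : Cl K E) (hD : Clp (PQ.sub K E) D) :
    pc (PQ.sub K E) D = PQ.sub K D := sorry

/-! increasing unions -/

section Chain

variable {Ks : ℕ → Set (Set Ω)}

theorem chain_part (hp : ∀ n, Part (Ks n) (Ks (n + 1))) (n : ℕ) : Part (Ks n) (⋃ n, Ks n) := sorry

theorem chain_part_le (hp : ∀ n, Part (Ks n) (Ks (n + 1))) {m n : ℕ} (h : m ≤ n) :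
    Part (Ks m) (Ks n) := sorry

theorem chain_isRing (h : ∀ n, IsRing (Ks n)) (hp : ∀ n, Part (Ks n) (Ks (n + 1))) :
    IsRing (⋃ n, Ks n) := sorry

theorem chain_car : car (⋃ n, Ks n) = ⋃ n, car (Ks n) := sorry

/-- Closed sets of the union. -/
theorem chain_cl (h : ∀ n, IsRing (Ks n)) (hp : ∀ n, Part (Ks n) (Ks (n + 1))) (hE : E ⊆ ⋃ n, car (Ks n))
    (hc : ∀ n, Cl (Ks n) (E ∩ car (Ks n))) : Cl (⋃ n, Ks n) E := sorry

theorem chain_sub : PQ.sub (⋃ n, Ks n) E = ⋃ n, PQ.sub (Ks n) (E ∩ car (Ks n)) := sorry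

end Chain

/-- A countable space is an increasing union of members. -/
theorem IsRing.exhaust (h : IsRing K) (hc : (car K).Countable) :
    ∃ A : ℕ → Set Ω, (∀ n, A n ∈ K) ∧ Monotone A ∧ ⋃ n, A n = car K ∧
      ∀ B ∈ K, ∃ n, B ⊆ A n := sorry

/-! homeomorphisms -/

theorem Iso.refl : Iso K K id := sorry

theorem Iso.congr (h : Iso K L f) (hfg : EqOn f g (car K)) : Iso K L g := sorry

theorem Iso.symm [Nonempty Ω] (h : Iso K L f) : ∃ g : Ω' → Ω, Iso L K g ∧ (∀ x ∈ car K, g (f x) = x) ∧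
    ∀ y ∈ car L, f (g y) = y := sorry

theorem Iso.trans {f' : Ω' → Ω''} (h : Iso K L f) (h' : Iso L N f') : Iso K N (f' ∘ f) := sorry

theorem Iso.image (h : Iso K L f) (hA : A ∈ K) : f '' A ∈ L := sorry

theorem Iso.preimage (h : Iso K L f) {B : Set Ω'} (hB : B ∈ L) : {x | x ∈ car K ∧ f x ∈ B} ∈ K := sorry

theorem Iso.isRing (h : Iso K L f) (hK : IsRing K) : IsRing L := sorry

theorem Iso.cl (h : Iso K L f) (hE : Cl K E) : Cl L (f '' E) := sorry

theorem Iso.clp (h : Iso K L f) (hD : Clp K D) : Clp L (f '' D) := sorry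

/-- Restriction to a clopen subset. -/
theorem Iso.pc (hK : IsRing K) (h : Iso K L f) (hD : Clp K D) :
    Iso (PQ.pc K D) (PQ.pc L (f '' D)) f := sorry

/-- Restriction to a closed subset. -/
theorem Iso.sub (hK : IsRing K) (h : Iso K L f) (hE : Cl K E) :
    Iso (PQ.sub K E) (PQ.sub L (f '' E)) f := sorry

/-- A criterion. -/
theorem iso_of (hb : BijOn f (car K) (car L)) (h1 : ∀ A ∈ K, f '' A ∈ L)
    (h2 : ∀ B ∈ L, {x | x ∈ car K ∧ f x ∈ B} ∈ K) : Iso K L f := sorry

/-- Gluing along partitions into members. -/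
theorem iso_glue (hK : IsRing K) (hL : IsRing L) {ι : Type} (C : ι → Set Ω) (C' : ι → Set Ω')
    (hC : ∀ i, C i ∈ K) (hC' : ∀ i, C' i ∈ L) (hd : Pairwise fun i j => Disjoint (C i) (C j))
    (hd' : Pairwise fun i j => Disjoint (C' i) (C' j)) (hu : ⋃ i, C i = car K)
    (hu' : ⋃ i, C' i = car L) (hf : ∀ i, Iso (PQ.pc K (C i)) (PQ.pc L (C' i)) f) : Iso K L f := sorry

/-- Gluing along partitions into two clopen sets. -/
theorem iso_glue_two (hK : IsRing K) (hL : IsRing L) {D' : Set Ω'} (hD : Clp K D) (hD' : Clp L D')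
    (h1 : Iso (PQ.pc K D) (PQ.pc L D') f)
    (h2 : Iso (PQ.pc K (car K \ D)) (PQ.pc L (car L \ D')) f) : Iso K L f := sorry

theorem chain_iso {Ks : ℕ → Set (Set Ω)} {Ls : ℕ → Set (Set Ω')}
    (hp : ∀ n, Part (Ks n) (Ks (n + 1))) (hp' : ∀ n, Part (Ls n) (Ls (n + 1)))
    (h : ∀ n, Iso (Ks n) (Ls n) f) : Iso (⋃ n, Ks n) (⋃ n, Ls n) f := sorry

/-! closed embeddings -/

theorem Emb.congr {f g : Ω → Ω} (h : Emb K f) (hfg : EqOn f g (car K)) : Emb K g := sorry

/-- A closed embedding restricts to an invariant clopen set. -/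
theorem Emb.pc {f : Ω → Ω} (hK : IsRing K) (h : Emb K f) (hD : Clp K D) (hm : MapsTo f D D) :
    Emb (PQ.pc K D) f := sorry

end Pool.Agent.Helper26.PQ
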