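import Pool.Agent.Helper26.PQ.Stub.A1

/-! # A2: the Cantor-Bendixson rank -/

set_option autoImplicit false

namespace Pool.Agent.Helper26.PQ

open Set

universe u v

variable {Ω : Type u} {Ω' : Type v} {K K' : Set (Set Ω)} {L : Set (Set Ω')}
variable {A B E : Set Ω} {f : Ω → Ω'} {x : Ω} {ρ σ : Ω → Ordinal.{0}}

/-- The rank function is unique. -/
theorem IsRank.unique (hK : IsRing K) (h : IsRank K ρ) (h' : IsRank K σ) : EqOn ρ σ (car K) := sorry

theorem isRank_rk (h : ∃ ρ, IsRank K ρ) : IsRank K (rk K) := sorry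

theorem IsRank.rk_eq (hK : IsRing K) (h : IsRank K ρ) (hx : x ∈ car K) : rk K x = ρ x := sorry

theorem IsRank.congr (h : IsRank K ρ) (he : EqOn ρ σ (car K)) : IsRank K σ := sorry

theorem IsRank.part (h : IsRank K ρ) (hp : Part K' K) : IsRank K' ρ := sorry

theorem rk_part (hK : IsRing K) (h : ∃ ρ, IsRank K ρ) (hp : Part K' K) (hx : x ∈ car K') :
    rk K' x = rk K x := sorry

/-- A closed subspace has a rank function. -/
theorem exists_rank_sub (hK : IsRing K) (h : ∃ ρ, IsRank K ρ) (hE : Cl K E) :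
    ∃ ρ, IsRank (sub K E) ρ := sorry

theorem rk_sub_le (hK : IsRing K) (h : ∃ ρ, IsRank K ρ) (hE : Cl K E) (hx : x ∈ E) :
    rk (sub K E) x ≤ rk K x := sorry

/-- The rank in a closed subspace is local. -/
theorem rk_sub_part (hK : IsRing K) (h : ∃ ρ, IsRank K ρ) (hp : Part K' K) (hE : Cl K E)
    (hx : x ∈ E ∩ car K') : rk (sub K' (E ∩ car K')) x = rk (sub K E) x := sorry

/-- The rank is local in a relatively clopen subset of a closed subspace. -/
theorem rk_sub_clp (hK : IsRing K) (h : ∃ ρ, IsRank K ρ) (hE : Cl K E) {D : Set Ω}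
    (hD : Clp (sub K E) D) (hx : x ∈ D) : rk (pc (sub K E) D) x = rk (sub K E) x := sorry

theorem IsRank.iso (hf : Iso K L f) {τ : Ω' → Ordinal.{0}} (h : IsRank L τ) :
    IsRank K (fun x => τ (f x)) := sorry

theorem rk_iso (hK : IsRing K) (hf : Iso K L f) (h : ∃ τ, IsRank L τ) (hx : x ∈ car K) :
    rk K x = rk L (f x) := sorry

theorem exists_rank_iso [Nonempty Ω] (hf : Iso K L f) (h : ∃ ρ, IsRank K ρ) :
    ∃ τ, IsRank L τ := sorry

/-- All smaller ranks occur in every neighbourhood. -/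
theorem exists_rk_eq (h : ∃ ρ, IsRank K ρ) (hK : IsRing K) (hA : A ∈ K) (hx : x ∈ A)
    {β : Ordinal.{0}} (hβ : β ≤ rk K x) : ∃ y ∈ A, rk K y = β := sorry

/-- Small neighbourhoods in which `x` is the only point of largest rank. -/
theorem exists_top (h : ∃ ρ, IsRank K ρ) (hK : IsRing K) (hA : A ∈ K) (hx : x ∈ A) :
    ∃ B ∈ K, x ∈ B ∧ B ⊆ A ∧ ∀ y ∈ B, y ≠ x → rk K y < rk K x := sorry

theorem chain_rank {Ks : ℕ → Set (Set Ω)} (hr : ∀ n, IsRing (Ks n))
    (hp : ∀ n, Part (Ks n) (Ks (n + 1))) (h : ∀ n, ∃ ρ, IsRank (Ks n) ρ) :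
    ∃ ρ, IsRank (⋃ n, Ks n) ρ := sorry

/-! spaces of height at most `α` -/

variable {α : Ordinal.{0}}

theorem IsSp.isRank (h : IsSp α K) : IsRank K (rk K) := sorry

theorem isSp_empty : IsSp α ({∅} : Set (Set Ω)) := sorry

theorem IsSp.part (h : IsSp α K) (hp : Part K' K) : IsSp α K' := sorry

theorem IsSp.sub (h : IsSp α K) (hE : Cl K E) : IsSp α (PQ.sub K E) := sorry

theorem IsSp.iso [Nonempty Ω] (h : IsSp α K) (hf : Iso K L f) : IsSp α L := sorry

theorem IsSp.chain {Ks : ℕ → Set (Set Ω)} (h : ∀ n, IsSp α (Ks n))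
    (hp : ∀ n, Part (Ks n) (Ks (n + 1))) : IsSp α (⋃ n, Ks n) := sorry

/-- The discrete space on one more point. -/
theorem IsSp.insert_point (h : IsSp α K) (hα : 0 < α) (hx : x ∉ car K) :
    ∃ K', IsSp α K' ∧ Part K K' ∧ car K' = insert x (car K) := sorry

end Pool.Agent.Helper26.PQ
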