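import Pool.Agent.Helper26.PQ.Stub.A2

/-! # A3: the classification of countable compact spaces -/

set_option autoImplicit false

namespace Pool.Agent.Helper26.PQ

open Set

universe u v

/-- Two compact open sets of countable spaces, each with exactly one point of largest rank, are
homeomorphic if these ranks are equal. -/
theorem classify {Ω : Type u} {Ω' : Type v} {K : Set (Set Ω)} {L : Set (Set Ω')}
    {α α' : Ordinal.{0}} (hK : IsSp α K) (hL : IsSp α' L) {C : Set Ω} {C' : Set Ω'} (hC : C ∈ K)
    (hC' : C' ∈ L) {x : Ω} {x' : Ω'} (hx : x ∈ C) (hx' : x' ∈ C')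
    (ht : ∀ y ∈ C, y ≠ x → rk K y < rk K x) (ht' : ∀ y ∈ C', y ≠ x' → rk L y < rk L x')
    (h : rk K x = rk L x') : ∃ f : Ω → Ω', Iso (pc K C) (pc L C') f := sorry

end Pool.Agent.Helper26.PQ
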