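import Pool.Agent.Helper26.PQ.Defs

/-! # B1: words in partial maps -/

set_option autoImplicit false

namespace Pool.Agent.Helper26.PQ

open Set

universe u v

variable {Ω : Type u} {I : Type v} {H H' : I → Ω → Ω → Prop} {g g' : FreeGroup I}
variable {x y z : Ω} {a b : Set I} {Z : Set Ω}

theorem act_append {w w' : List (I × Bool)} :
    Act H (w ++ w') x z ↔ ∃ y, Act H w' x y ∧ Act H w y z := sorry

/-- The action of a word is that of its group element (one direction). -/
theorem gact_of_act (hH : PInj H) {w : List (I × Bool)} (h : Act H w x y) :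
    GAct H (FreeGroup.mk w) x y := sorry

theorem gact_one : GAct H 1 x y ↔ x = y := sorry

theorem gact_of {i : I} : GAct H (FreeGroup.of i) x y ↔ H i x y := sorry

theorem gact_inv : GAct H g⁻¹ x y ↔ GAct H g y x := sorry

theorem gact_mul (hH : PInj H) (h : GAct H g x y) (h' : GAct H g' y z) : GAct H (g' * g) x z :=
  sorry

theorem gact_func (hH : PInj H) (h : GAct H g x y) (h' : GAct H g x z) : y = z := sorry

theorem gact_inj (hH : PInj H) (h : GAct H g x z) (h' : GAct H g y z) : x = y := sorry

theorem gact_mono (h : ∀ i x y, H i x y → H' i x y) (h' : GAct H g x y) : GAct H' g x y := sorry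

theorem gact_lt (h : ∀ i x y, H i x y → i ∈ a) (h' : GAct H g x y) : Lt a g := sorry

/-- Invariant sets. -/
theorem gact_invariant (h : ∀ i x y, H i x y → (x ∈ Z ↔ y ∈ Z)) (h' : GAct H g x y) :
    x ∈ Z ↔ y ∈ Z := sorry

/-- Restriction to an invariant set. -/
theorem gact_restrict (h : ∀ i x y, H i x y → (x ∈ Z ↔ y ∈ Z)) (hx : x ∈ Z)
    (h' : ∀ i x y, x ∈ Z → H i x y → H' i x y) (h'' : GAct H g x y) : GAct H' g x y := sorry

/-- Only the letters of `g` matter. -/
theorem gact_letters (hg : Lt a g) (h : ∀ i ∈ a, ∀ x y, H i x y → H' i x y) (h' : GAct H g x y) :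
    GAct H' g x y := sorry

/-- An element of the free group is `1` or has a first letter (applied last). -/
theorem gact_cases (g : FreeGroup I) : g = 1 ∨ ∃ (i : I) (b : Bool) (g' : FreeGroup I),
    g = (if b then FreeGroup.of i else (FreeGroup.of i)⁻¹) * g' ∧
    (∀ a : Set I, Lt a g → i ∈ a ∧ Lt a g') ∧
    (∀ (H : I → Ω → Ω → Prop) (x y : Ω),
      GAct H g x y ↔ ∃ z, GAct H g' x z ∧ (if b then H i z y else H i y z)) := sorry

/-- Every finite set of group elements is contained in a finite set which is closed under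
removing the letter applied last, and has its letters in the same sets. -/
theorem exists_sufClosed {s : Set (FreeGroup I)} (hs : s.Finite) :
    ∃ t : Set (FreeGroup I), t.Finite ∧ s ⊆ t ∧ 1 ∈ t ∧
      (∀ a : Set I, (∀ g ∈ s, Lt a g) → ∀ g ∈ t, Lt a g) ∧ SufClosed t := sorry

open Classical in
/-- The first letter. -/
theorem gact_cons {s : I × Bool} {w : List (I × Bool)} (hg : g.toWord = s :: w) :
    g = (if s.2 then FreeGroup.of s.1 else (FreeGroup.of s.1)⁻¹) * FreeGroup.mk w ∧
      (∀ a : Set I, Lt a g → s.1 ∈ a ∧ Lt a (FreeGroup.mk w)) ∧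
      (∀ (H : I → Ω → Ω → Prop) (x y : Ω), GAct H g x y ↔
        ∃ z, GAct H (FreeGroup.mk w) x z ∧ (if s.2 then H s.1 z y else H s.1 y z)) := sorry

theorem lt_one : Lt a (1 : FreeGroup I) := sorry

theorem lt_of {i : I} (h : i ∈ a) : Lt a (FreeGroup.of i) := sorry

theorem Lt.mul (h : Lt a g) (h' : Lt a g') : Lt a (g * g') := sorry

theorem Lt.inv (h : Lt a g) : Lt a g⁻¹ := sorry

theorem Lt.mono (h : Lt a g) (hab : a ⊆ b) : Lt b g := sorry

/-- Countably many letters give countably many words. -/
theorem countable_lt (ha : a.Countable) : {g : FreeGroup I | Lt a g}.Countable := sorry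

/-- A word uses finitely many letters: in an increasing union the letters of a word are in one of
the sets. -/
theorem exists_lt_of_iUnion {s : ℕ → Set I} (hs : Monotone s) (h : Lt (⋃ n, s n) g) :
    ∃ n, Lt (s n) g := sorry

/-- A path is finite: in an increasing union of systems it lies in one of them. -/
theorem gact_iUnion {Hs : ℕ → I → Ω → Ω → Prop} (hs : ∀ n i x y, Hs n i x y → Hs (n + 1) i x y)
    (h : GAct (fun i x y => ∃ n, Hs n i x y) g x y) : ∃ n, GAct (Hs n) g x y := sorry

end Pool.Agent.Helper26.PQ
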