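import Pool.Agent.Helper26.PQ.Stub.A2
import Pool.Agent.Helper26.PQ.Stub.B1

/-! # C1: conditions -/

set_option autoImplicit false

namespace Pool.Agent.Helper26.PQ

open Set

universe u

variable {Ω : Type} {I : Type u} {p q r : PC Ω I} {α : Ordinal.{0}}

namespace PC

theorem X_res (c : Set I) : (p.res c).X = p.X := rfl

theorem Basic.pinj (h : p.Basic α) {a : Set I} (ha : a ⊆ p.a) {Z : Set Ω} (hZ : Z ⊆ p.X) :
    PInj (p.H a Z) := sorry

end PC

theorem Le.refl (p : PC Ω I) : Le p p := sorry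

theorem Le.trans (hp : p.Basic α) (hq : q.Basic α) (hr : r.Basic α) (h : Le r q) (h' : Le q p) :
    Le r p := sorry

theorem Le.X_subset (h : Le q p) : p.X ⊆ q.X := sorry

/-- Words of `p` at points of `p` are evaluated in `p`. -/
theorem Le.gact (hp : p.Basic α) (hq : q.Basic α) (h : Le q p) {g : FreeGroup I} (hg : Lt p.a g)
    {x y : Ω} (hx : x ∈ p.X) : GAct q.HH g x y ↔ GAct p.HH g x y := sorry

theorem Le.rk (hp : p.Basic α) (hq : q.Basic α) (h : Le q p) {x : Ω} (hx : x ∈ p.X) :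
    rk q.K x = rk p.K x := sorry

theorem le_res (c : Set I) : Le p (p.res c) := sorry

theorem res_le_res (h : Le q p) (c : Set I) : Le (q.res c) (p.res c) := sorry

/-- `Le q (p.res c)` is the same as `Le (q.res c) (p.res c)`. -/
theorem le_res_iff (c : Set I) : Le (q.res c) (p.res c) ↔ Le q (p.res c) := sorry

section Lim

variable {ps : ℕ → PC Ω I}

theorem lim_X (ps : ℕ → PC Ω I) : (lim ps).X = ⋃ n, (ps n).X := sorry

theorem le_of_le (hb : ∀ n, (ps n).Basic α) (h : ∀ n, Le (ps (n + 1)) (ps n)) {m n : ℕ}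
    (hmn : m ≤ n) : Le (ps n) (ps m) := sorry

theorem lim_h (hb : ∀ n, (ps n).Basic α) (h : ∀ n, Le (ps (n + 1)) (ps n)) {n : ℕ} {i : I}
    (hi : i ∈ (ps n).a) {x : Ω} (hx : x ∈ (ps n).X) : (lim ps).h i x = (ps n).h i x := sorry

theorem lim_basic (hb : ∀ n, (ps n).Basic α) (h : ∀ n, Le (ps (n + 1)) (ps n)) :
    (lim ps).Basic α := sorry

theorem lim_le (hb : ∀ n, (ps n).Basic α) (h : ∀ n, Le (ps (n + 1)) (ps n)) (n : ℕ) :
    Le (lim ps) (ps n) := sorry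

end Lim

variable [LinearOrder I] [WellFoundedLT I]

namespace Frame

variable (F : Frame Ω I) {c c' : Set I}

theorem basic_of_mem (h : p ∈ F.C c) : p.Basic F.α := sorry

theorem C_mono (h : c ⊆ c') : F.C c ⊆ F.C c' := sorry

theorem mem_C_of_subset (h : p ∈ F.C c) (hc : p.a ⊆ c') : p ∈ F.C c' := sorry

theorem res_mem (h : p ∈ F.C c) (hc' : IsLowerSet c') : p.res c' ∈ F.C (c ∩ c') := sorry

/-- Only the relevant part of the data matters. -/
theorem congr_mem (hK : q.K = p.K) (ha : q.a = p.a) (hh : ∀ i ∈ p.a, EqOn (q.h i) (p.h i) p.X)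
    (h : p ∈ F.C c) : q ∈ F.C c := sorry

theorem dec_congr (hK : q.K = p.K) (ha : q.a = p.a) (hh : ∀ i ∈ p.a, EqOn (q.h i) (p.h i) p.X)
    {i : I} (hi : i ∈ F.V) (h : p ∈ F.C (Iio i)) {E : Set Ω} (hE : F.Dec i p E) : F.Dec i q E :=
  sorry

theorem lim_mem {ps : ℕ → PC Ω I} (hps : ∀ n, ps n ∈ F.C c)
    (h : ∀ n, Le (ps (n + 1)) (ps n)) : lim ps ∈ F.C c := sorry

/-- Adding a letter `j` above all letters of `r`, whose set is decided. -/
theorem add_letter {j : I} (hj : j ∈ F.V) (hr : r ∈ F.C (Iio j)) {E : Set Ω}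
    (hE : F.Dec j r E) {f : Ω → Ω} (hf : Emb r.K f) (hfE : f '' r.X = E) :
    ∃ r' ∈ F.C (Iic j), Le r' r ∧ r'.K = r.K ∧ r'.a = insert j r.a ∧ EqOn (r'.h j) f r.X ∧
      ∀ i ∈ r.a, EqOn (r'.h i) (r.h i) r.X := sorry

/-- Two conditions with the same space which agree on the common letters are compatible. -/
theorem compat (hp : p ∈ F.C c) (hq : q ∈ F.C c) (hK : p.K = q.K)
    (hh : ∀ i ∈ p.a ∩ q.a, EqOn (p.h i) (q.h i) p.X) :
    ∃ r ∈ F.C c, Le r p ∧ Le r q ∧ r.K = p.K ∧ r.a = p.a ∪ q.a := sorry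

/-- Decisions of conditions. -/
theorem dec_of_mem (h : p ∈ F.C c) {i : I} (hi : i ∈ p.a) :
    F.Dec i (p.res (Iio i)) (p.h i '' p.X) := sorry

/-- A decided set is compatible with what weaker conditions say. -/
theorem dec_inter {i : I} (hi : i ∈ F.V) (hp : p ∈ F.C (Iio i)) (hq : q ∈ F.C (Iio i))
    (h : Le q p) {E E' : Set Ω} (hE : F.Dec i p E) (hE' : F.Dec i q E') : E' ∩ p.X = E := sorry

/-- Decreasing sequences which decide more and more. -/
theorem exists_lim_dec {C' : Set (PC Ω I)} {D : PC Ω I → Set Ω → Prop} (hC' : C' = F.C c)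
    (hD : IsName C' D) {P : ℕ → PC Ω I → PC Ω I → Prop}
    (hP : ∀ n, ∀ p ∈ F.C c, ∃ q ∈ F.C c, Le q p ∧ (∃ E, D q E) ∧ P n p q) (hp : p ∈ F.C c) :
    ∃ ps : ℕ → PC Ω I, (∀ n, ps n ∈ F.C c) ∧ Le (ps 0) p ∧ (∀ n, Le (ps (n + 1)) (ps n)) ∧
      (∀ n, P n (ps n) (ps (n + 1))) ∧ ∃ E : ℕ → Set Ω, (∀ n, D (ps n) (E n)) ∧
        lim ps ∈ F.C c ∧ D (lim ps) (⋃ n, E n) ∧ ∀ n, (⋃ n, E n) ∩ (ps n).X = E n := sorry

end Frame

end Pool.Agent.Helper26.PQ
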