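import Pool.Agent.Helper26.PQ.Base
import Pool.Agent.Helper26.PQ.Stub.A3
import Pool.Agent.Helper26.PQ.Stub.C1

/-! # D1: the fresh step -/

set_option autoImplicit false

namespace Pool.Agent.Helper26.PQ

open Set

universe u v

open Classical in
/-- The cocycle `c`, multiplied by the constant `d k` on the block `Y k`. -/
noncomputable def tw {Ω : Type u} {G : Type v} [Group G] (Y : ℕ → Set Ω) (c : Ω → G) (d : ℕ → G)
    (x : Ω) : G :=
  if h : ∃ k, x ∈ Y k then c x * d (Nat.find h) else c x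

/-- The back and forth construction. `K` is the space, `Y k` are disjoint clopen blocks
which every member of `K` leaves; `U` is a clopen subset of `K` and `R` a clopen subset of the
closed subspace `E`, `E ∩ Y k` contains points of high rank for infinitely many `k`. -/
theorem back_forth {Ω : Type u} [Nonempty Ω] {G : Type v} [Group G] (s : G) {α : Ordinal.{0}}
    {K : Set (Set Ω)} (hK : IsSp α K)
    {Y : ℕ → Set Ω} (hY : ∀ k, Clp K (Y k)) (hYd : Pairwise fun m n => Disjoint (Y m) (Y n))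
    (hYK : ∀ A ∈ K, ∃ κ, ∀ k ≥ κ, Disjoint A (Y k))
    {E U R Z : Set Ω} (hE : Cl K E) (hU : Clp K U) (hYU : ∀ k, Y k ⊆ U) (hR : Clp (PQ.sub K E) R)
    (hYR : ∀ k, E ∩ Y k ⊆ R) (hUZ : U ⊆ Z) (hRZ : R ⊆ Z) {c : Ω → G} (hc : LC K Z c)
    (hhigh : ∀ β < α, ∀ k, ∃ m ≥ k, ∃ x ∈ E ∩ Y m, β ≤ rk (PQ.sub K E) x) :
    ∃ (f : Ω → Ω) (d : ℕ → G), Iso (PQ.pc K U) (PQ.pc (PQ.sub K E) R) f ∧
      ∀ x ∈ U, tw Y c d (f x) = s * tw Y c d x := sorry

variable {Ω : Type} [Nonempty Ω] {I : Type u} [LinearOrder I] [WellFoundedLT I]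

/-- The fresh step: the letter `j` is added. -/
theorem fresh_step (F : Frame Ω I) (hα : F.α < Ordinal.omega 1) (b : Base F) (hb : Compat b) {j : I}
    (hj : j ∈ b.a) (hS : Supply F (Iio j) (F.Dec j)) {r : PC Ω I} {γ : Ω → FreeGroup I}
    (hr : Sys b (Iio j) r γ) :
    ∃ r' γ', Sys b (Iic j) r' γ' ∧ Le r' r ∧ EqOn γ' γ (r.X \ b.Xb) := sorry

end Pool.Agent.Helper26.PQ
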