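import Pool.Agent.Helper26.PQ.Stub.D1

/-! # D2: the extension lemma, inductive step -/

set_option autoImplicit false

namespace Pool.Agent.Helper26.PQ

open Set

universe u

variable {Ω : Type} [Nonempty Ω] {I : Type u} [LinearOrder I] [WellFoundedLT I]

theorem gel_step (F : Frame Ω I) (hα : F.α < Ordinal.omega 1) {c' : Set I} (hc' : IsLowerSet c')
    (h : ∀ j ∈ c', GEL F (Iio j)) (hS : ∀ j ∈ c', j ∈ F.V → Supply F (Iio j) (F.Dec j)) :
    GEL F c' := sorry

end Pool.Agent.Helper26.PQ
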