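import Pool.Agent.Helper26.PQ.Stub.A2
import Pool.Agent.Helper26.PQ.Stub.B1

/-! # E1: small neighbourhoods along a finite tree of words -/

set_option autoImplicit false

namespace Pool.Agent.Helper26.PQ

open Set

universe u v

theorem shrink {Ω : Type u} {I : Type v} {α : Ordinal.{0}} {K : Set (Set Ω)} (hK : IsSp α K)
    {a : Set I} {h : I → Ω → Ω} (he : ∀ i ∈ a, Emb K (h i))
    {c : Ω → FreeGroup I} (hc : LC K (car K) c)
    (hcoc : ∀ i ∈ a, ∀ x ∈ car K, c (h i x) = FreeGroup.of i * c x)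
    {S : Set (FreeGroup I)} (hS : S.Finite) (hsuf : SufClosed S)
    (hLt : ∀ g ∈ S, Lt a g) {J : Set I} (hJ : J.Finite) (hJa : J ⊆ a) {d : Ω} (hd : d ∈ car K)
    (hcd : c d = 1) {y : FreeGroup I → Ω}
    (hy : ∀ g ∈ S, GAct (fun i x y => i ∈ a ∧ x ∈ car K ∧ h i x = y) g d (y g)) :
    ∃ W : FreeGroup I → Set Ω,
      (∀ g ∈ S, W g ∈ K ∧ y g ∈ W g ∧ ∀ u ∈ W g, rk K u ≤ rk K (y g) ∧ c u = g) ∧
      (∀ g ∈ S, ∀ i ∈ a, FreeGroup.of i * g ∈ S →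
        h i '' W g = W (FreeGroup.of i * g) ∩ h i '' car K) ∧
      (∀ g ∈ S, ∀ i ∈ J, y g ∉ h i '' car K → W g ∩ h i '' car K = ∅) := sorry

end Pool.Agent.Helper26.PQ
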