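import Pool.Agent.Helper26.PQ.Stub.A2

/-! # E2a: adding limit points to a space -/

set_option autoImplicit false

namespace Pool.Agent.Helper26.PQ

open Set

universe u v

/-- New points `ι g`, `g ∈ P`, are added to the union of a chain of spaces; `ι g` is the limit of the
members `W n g` (defined for `g ∈ S n`) of the `n + 1`-st space, which are disjoint from the `n`-th
space. -/
theorem limit_space {Ω : Type u} {G : Type v} {α : Ordinal.{0}} {Ks : ℕ → Set (Set Ω)}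
    (hK : ∀ n, IsSp α (Ks n)) (hp : ∀ n, Part (Ks n) (Ks (n + 1))) {P : Set G} (hP : P.Countable)
    {ι : G → Ω} (hι : InjOn ι P) (hιX : ∀ g ∈ P, ∀ n, ι g ∉ car (Ks n))
    {S : ℕ → Set G} (hS : ∀ n, (S n).Finite) (hSm : Monotone S) (hSP : ⋃ n, S n = P)
    {W : ℕ → G → Set Ω} (hW : ∀ n, ∀ g ∈ S n, W n g ∈ Ks (n + 1))
    (hWX : ∀ n, ∀ g ∈ S n, Disjoint (W n g) (car (Ks n)))
    (hWd : ∀ n, ∀ g ∈ S n, ∀ g' ∈ S n, g ≠ g' → Disjoint (W n g) (W n g'))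
    {ρ : G → Ordinal.{0}} (hρ : ∀ g ∈ P, ρ g < α)
    (h1 : ∀ g ∈ P, ∃ N, ∀ n ≥ N, ∀ u ∈ W n g, rk (Ks (n + 1)) u < ρ g)
    (h2 : ∀ g ∈ P, ∀ β < ρ g, ∀ N, ∃ n ≥ N, ∃ u ∈ W n g, β ≤ rk (Ks (n + 1)) u) :
    ∃ K, IsSp α K ∧ car K = (⋃ n, car (Ks n)) ∪ ι '' P ∧ (∀ n, Part (Ks n) K) ∧
      (∀ g ∈ P, rk K (ι g) = ρ g) ∧
      ∀ A, A ∈ K ↔ ∃ N, ∃ A₀ ∈ Ks N, ∃ T ⊆ S N,
        A = A₀ ∪ ι '' T ∪ ⋃ n ≥ N, ⋃ g ∈ T, W n g := sorry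

end Pool.Agent.Helper26.PQ
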