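import Pool.Agent.Helper26.PQ.Base
import Pool.Agent.Helper26.PQ.Stub.C1
import Pool.Agent.Helper26.PQ.Stub.E1
import Pool.Agent.Helper26.PQ.Stub.E2a

/-! # E2b: the base with new limit points -/

set_option autoImplicit false

namespace Pool.Agent.Helper26.PQ

open Set

universe u

variable {Ω : Type} {I : Type u}

variable [LinearOrder I] [WellFoundedLT I]

theorem exists_base [Uncountable Ω] (F : Frame Ω I) {c : Set I} {ps : ℕ → PC Ω I}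
    (hps : ∀ n, ps n ∈ F.C c) (hle : ∀ n, Le (ps (n + 1)) (ps n)) {d : ℕ → Ω}
    (hd : ∀ n, d n ∈ (ps (n + 1)).X \ (ps n).X)
    (hst : ∀ g, Lt (lim ps).a g →
      (∃ N, ∀ n ≥ N, ¬ ∃ y, GAct (ps (n + 1)).HH g (d n) y) ∨ ∃ ρ < F.α, EvDef ps d g ρ) :
    ∃ b : Base F, b.Xb = (lim ps).X ∧ b.a = (lim ps).a ∧
      (∀ i ∈ b.a, EqOn (b.h i) ((lim ps).h i) (lim ps).X) ∧ (∀ n, Part (ps n).K b.K) ∧
      (∃ C : Ω → FreeGroup I, EqOn C b.γ (car b.K \ b.Xb) ∧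
        (∀ n, LC b.K (car b.K \ (ps n).X) C) ∧
        ∀ n, ∀ i ∈ (ps n).a, ∀ x ∈ car b.K \ (ps n).X, C (b.h i x) = FreeGroup.of i * C x) ∧
      (∀ i ∈ b.a, ∀ x ∈ car b.K \ b.Xb, ∀ A ∈ b.K, b.h i x ∈ A →
        ∃ u ∈ (lim ps).X, (lim ps).h i u ∈ A) ∧
      ∃ x ∈ car b.K \ b.Xb, (∀ A ∈ b.K, x ∈ A → ∃ N, ∀ n ≥ N, d n ∈ A) ∧
        ∀ g ρ, Lt (lim ps).a g → ρ < F.α → EvDef ps d g ρ → ∃ y ∈ car b.K \ b.Xb,
          GAct (fun i x y => i ∈ b.a ∧ x ∈ car b.K \ b.Xb ∧ b.h i x = y) g x y ∧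
            rk b.K y = ρ := sorry

end Pool.Agent.Helper26.PQ
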