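import Pool.Agent.Helper26.PQ.Stub.E2b

/-! # E3: limit points -/

set_option autoImplicit false

namespace Pool.Agent.Helper26.PQ

open Set

universe u

variable {Ω : Type} {I : Type u} [LinearOrder I] [WellFoundedLT I]

theorem limit_point [Uncountable Ω] (F : Frame Ω I) {c : Set I} (hc : IsLowerSet c)
    (hG : GEL F c) {ps : ℕ → PC Ω I}
    (hps : ∀ n, ps n ∈ F.C c) (hle : ∀ n, Le (ps (n + 1)) (ps n)) {d : ℕ → Ω}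
    (hd : ∀ n, d n ∈ (ps (n + 1)).X \ (ps n).X)
    (hst : ∀ g, Lt (lim ps).a g →
      (∃ N, ∀ n ≥ N, ¬ ∃ y, GAct (ps (n + 1)).HH g (d n) y) ∨ ∃ ρ < F.α, EvDef ps d g ρ) :
    ∃ r ∈ F.C c, (∀ n, Le r (ps n)) ∧ ∃ x ∈ r.X, x ∉ (lim ps).X ∧
      (∀ A ∈ r.K, x ∈ A → ∃ N, ∀ n ≥ N, d n ∈ A) ∧
      ∀ g ρ, Lt (lim ps).a g → ρ < F.α → EvDef ps d g ρ →
        ∃ y, GAct r.HH g x y ∧ rk r.K y = ρ := sorry

end Pool.Agent.Helper26.PQ
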